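import Pool.Agent.E8helper30.TD.Stm

/-! Piece NEG: no covering for small `d`. -/

set_option autoImplicit false

namespace Pool.Agent.E8helper79.TD

open Pool.Agent.E8helper30.TD

theorem two_le {S : Set ℂ} (h : ∀ x ∈ S, ∀ y ∈ S, x ≠ y →
    Disjoint (interior (Metric.closedBall x 1)) (interior (Metric.closedBall y 1))) :
    ∀ x ∈ S, ∀ y ∈ S, x ≠ y → 2 ≤ ‖x - y‖ := by
  intro x hx y hy hxy
  by_contra hc
  push Not at hc
  have h1 := h x hx y hy hxy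
  rw [interior_closedBall x one_ne_zero, interior_closedBall y one_ne_zero,
    Set.disjoint_left] at h1
  have e1 : (x + y) / 2 - x = -((x - y) / 2) := by ring
  have e2 : (x + y) / 2 - y = (x - y) / 2 := by ring
  have e3 : ‖(x - y) / 2‖ = ‖x - y‖ / 2 := by
    rw [norm_div]
    norm_num
  refine h1 (a := (x + y) / 2) ?_ ?_
  · rw [Metric.mem_ball, dist_eq_norm, e1, norm_neg, e3]
    linarith
  · rw [Metric.mem_ball, dist_eq_norm, e2, e3]
    linarith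

theorem t_NEG (hR : S_RAD) (hH : S_HOLE) : S_NEG := by
  rintro d hd hd2 ⟨S, -, hdis, hcov⟩
  have h2 := two_le hdis
  have h3 : 0 < √3 := Real.sqrt_pos.2 (by norm_num)
  set η := d / √3 with hη
  have hη0 : 0 < η := div_pos hd h3
  have hη1 : 1 + η < 2 / √3 := by
    rw [hη, ← sub_pos]
    have : 2 / √3 - (1 + d / √3) = (2 - √3 - d) / √3 := by
      field_simp
      ring
    rw [this]
    exact div_pos (by linarith) h3
  set q := (1 + η + 2 / √3) / 2 with hq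
  have hq1 : 1 + η < q := by rw [hq]; linarith
  have hq2 : q < 2 / √3 := by rw [hq]; linarith
  have hc : ∀ p ∈ T d, ∃ c ∈ S, ‖p - c‖ ≤ 1 := by
    intro p hp
    have := hcov hp
    rw [Set.mem_iUnion₂] at this
    obtain ⟨c, hc, hpc⟩ := this
    rw [Metric.mem_closedBall, dist_eq_norm] at hpc
    exact ⟨c, hc, hpc⟩
  obtain ⟨c₀, hc₀, -⟩ := hc 0 ⟨0, 0, by push_cast; ring⟩
  obtain ⟨p₁, hp₁, hp₁'⟩ := hR d (c₀ + q) hd
  obtain ⟨c₁, hc₁, hpc₁⟩ := hc p₁ hp₁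
  have hqn : ‖(q : ℂ)‖ = q := by
    rw [Complex.norm_real, Real.norm_of_nonneg (by linarith)]
  have hfar : q - η ≤ ‖p₁ - c₀‖ := by
    have h4 : (q : ℂ) = (p₁ - c₀) - (p₁ - (c₀ + q)) := by ring
    have h5 : ‖(q : ℂ)‖ ≤ ‖p₁ - c₀‖ + ‖p₁ - (c₀ + q)‖ := by
      conv_lhs => rw [h4]
      exact norm_sub_le _ _
    rw [hqn] at h5
    linarith
  have hne : c₁ ≠ c₀ := by
    rintro rfl
    linarith
  have hs : ‖c₁ - c₀‖ ≤ 2 * q := by
    have h4 : c₁ - c₀ = -(p₁ - c₁) + ((p₁ - (c₀ + q)) + q) := by ring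
    have h5 : ‖c₁ - c₀‖ ≤ ‖p₁ - c₁‖ + (‖p₁ - (c₀ + q)‖ + ‖(q : ℂ)‖) := by
      rw [h4]
      refine (norm_add_le _ _).trans (add_le_add ?_ (norm_add_le _ _))
      rw [norm_neg]
    rw [hqn] at h5
    linarith
  obtain ⟨z, hz⟩ := hH ‖c₁ - c₀‖ q S c₀ c₁ (by linarith) hq2 (h2 _ hc₁ _ hc₀ hne) hs h2 hc₀ hc₁ rfl
  obtain ⟨p, hp, hpz⟩ := hR d z hd
  obtain ⟨c, hcS, hpc⟩ := hc p hp
  have h6 := hz c hcS
  have h7 : ‖z - c‖ ≤ ‖p - z‖ + ‖p - c‖ := by
    have e : z - c = -(p - z) + (p - c) := by ring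
    rw [e]
    refine (norm_add_le _ _).trans (add_le_add ?_ le_rfl)
    rw [norm_neg]
  linarith

end Pool.Agent.E8helper79.TD
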